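import Pool.Agent.Helper46.AQ.Val

/-!
# The finite set of linear forms of a finite group which acts linearly on a polynomial ring
-/

set_option autoImplicit false
set_option linter.unusedSectionVars false

namespace Pool.Agent.Helper12.PN

open Finset Cardinal Pool.Agent.Helper46.AQ

section clos

/-- Finite dimensional spaces over finite fields are finite. -/
lemma finite_span {F M : Type} [Field F] [Finite F] [AddCommGroup M] [Module F M] {T : Set M}
    (hT : T.Finite) : ((Submodule.span F T : Submodule F M) : Set M).Finite := by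
  have h1 : Module.Finite F (Submodule.span F T) := Module.Finite.span_of_finite F hT
  have h2 : Finite (Submodule.span F T) := Module.finite_of_finite F
  exact Set.toFinite _

/-- Finitely generated abelian groups of prime exponent are finite. -/
lemma finite_clos {M : Type} [AddCommGroup M] (p : ℕ) [Fact p.Prime] (h : ∀ x : M, p • x = 0)
    {T : Set M} (hT : T.Finite) : ((AddSubgroup.closure T : AddSubgroup M) : Set M).Finite := by
  let _ : Module (ZMod p) M := AddCommGroup.zmodModule h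
  refine Set.Finite.subset (finite_span (F := ZMod p) hT) ?_
  exact (AddSubgroup.closure_le (Submodule.span (ZMod p) T).toAddSubgroup).2
    fun x hx => Submodule.subset_span hx

end clos

section act

variable {k : Type} [Field k] {n : ℕ} {G : Type} [Group G]
  (ρ : G →* (MvPolynomial (Fin n) k ≃ₐ[k] MvPolynomial (Fin n) k))

/-- The function field of affine space. -/
abbrev KK (k : Type) [Field k] (n : ℕ) : Type := FractionRing (MvPolynomial (Fin n) k)

/-- The inclusion. -/
noncomputable def Ps (k : Type) [Field k] (n : ℕ) : MvPolynomial (Fin n) k →ₐ[k] KK k n :=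
  IsScalarTower.toAlgHom k _ _

lemma Ps_inj : Function.Injective (Ps k n) :=
  IsFractionRing.injective (MvPolynomial (Fin n) k) (KK k n)

lemma Ps_X_ne_zero (i : Fin n) : Ps k n (MvPolynomial.X i) ≠ 0 := by
  rw [Ne, map_eq_zero_iff _ Ps_inj]
  exact MvPolynomial.X_ne_zero i

/-- The action on the function field. -/
noncomputable def rK : G →* (KK k n ≃ₐ[k] KK k n) :=
  (IsFractionRing.fieldEquivOfAlgEquivHom k (KK k n)).comp ρ

lemma rK_Ps (g : G) (f : MvPolynomial (Fin n) k) : rK ρ g (Ps k n f) = Ps k n (ρ g f) :=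
  IsFractionRing.fieldEquivOfAlgEquiv_algebraMap k (KK k n) (KK k n) (ρ g) f

/-- The generators: the images of the variables. -/
def TT : Set (KK k n) := Set.range fun x : G × Fin n => Ps k n (ρ x.1 (MvPolynomial.X x.2))

lemma TT_fin [Finite G] : (TT ρ).Finite := Set.finite_range _

lemma TT_st (g : G) {x : KK k n} (hx : x ∈ TT ρ) : rK ρ g x ∈ TT ρ := by
  obtain ⟨⟨h, i⟩, rfl⟩ := hx
  refine ⟨(g * h, i), ?_⟩
  change Ps k n (ρ (g * h) (MvPolynomial.X i)) = rK ρ g (Ps k n (ρ h (MvPolynomial.X i)))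
  rw [rK_Ps, map_mul]
  rfl

lemma X_mem_TT (i : Fin n) : Ps k n (MvPolynomial.X i) ∈ TT ρ := by
  refine ⟨(1, i), ?_⟩
  change Ps k n (ρ 1 (MvPolynomial.X i)) = _
  rw [map_one, AlgEquiv.one_apply]

lemma clos_st (g : G) {x : KK k n} (hx : x ∈ AddSubgroup.closure (TT ρ)) :
    rK ρ g x ∈ AddSubgroup.closure (TT ρ) := by
  have h1 : AddSubgroup.closure (TT ρ) ≤
      (AddSubgroup.closure (TT ρ)).comap (rK ρ g : KK k n ≃ₐ[k] KK k n).toAddEquiv.toAddMonoidHom :=
    (AddSubgroup.closure_le _).2 fun y hy => AddSubgroup.subset_closure (TT_st ρ g hy)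
  exact h1 hx

/-- The group generated by the images of the variables is finite in positive characteristic. -/
lemma TT_clos_fin [Finite G] (p : ℕ) [Fact p.Prime] [CharP k p] :
    ((AddSubgroup.closure (TT ρ) : AddSubgroup (KK k n)) : Set (KK k n)).Finite := by
  have hpK : ∀ x : KK k n, p • x = 0 := by
    intro x
    have h1 : CharP (KK k n) p := charP_of_injective_algebraMap (algebraMap k (KK k n)).injective p
    rw [nsmul_eq_mul, CharP.cast_eq_zero, zero_mul]
  exact finite_clos p hpK (TT_fin ρ)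

open Classical in
/-- The finite set of the nonzero elements of the group generated by the images of the
variables. -/
noncomputable def PP (hfin : ((AddSubgroup.closure (TT ρ) : AddSubgroup (KK k n)) :
    Set (KK k n)).Finite) : Finset (KK k n) := hfin.toFinset.erase 0

lemma mem_PP {hfin : ((AddSubgroup.closure (TT ρ) : AddSubgroup (KK k n)) :
    Set (KK k n)).Finite} {x : KK k n} :
    x ∈ PP ρ hfin ↔ x ≠ 0 ∧ x ∈ AddSubgroup.closure (TT ρ) := by
  classical
  unfold PP
  rw [Finset.mem_erase, Set.Finite.mem_toFinset]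
  rfl

lemma X_mem_PP {hfin : ((AddSubgroup.closure (TT ρ) : AddSubgroup (KK k n)) :
    Set (KK k n)).Finite} (i : Fin n) : Ps k n (MvPolynomial.X i) ∈ PP ρ hfin :=
  (mem_PP ρ).2 ⟨Ps_X_ne_zero i, AddSubgroup.subset_closure (X_mem_TT ρ i)⟩

end act

section lin

variable {k : Type} [Field k] {n : ℕ} {G : Type} [Group G]
  (ρ : G →* (MvPolynomial (Fin n) k ≃ₐ[k] MvPolynomial (Fin n) k))
  (hρ : ∀ g i, (ρ g (MvPolynomial.X i)).IsHomogeneous 1)

/-- The images of the linear forms. -/
noncomputable def LL (k : Type) [Field k] (n : ℕ) : Submodule k (KK k n) :=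
  (MvPolynomial.homogeneousSubmodule (Fin n) k 1).map (Ps k n).toLinearMap

lemma LL_eq : LL k n = Submodule.span k (Set.range fun i : Fin n => Ps k n (MvPolynomial.X i)) := by
  unfold LL
  rw [MvPolynomial.homogeneousSubmodule_one_eq_span_X, Submodule.map_span, ← Set.range_comp]
  rfl

include hρ in
lemma clos_le : (AddSubgroup.closure (TT ρ) : AddSubgroup (KK k n)) ≤ (LL k n).toAddSubgroup := by
  refine (AddSubgroup.closure_le _).2 ?_
  rintro x ⟨⟨g, i⟩, rfl⟩
  exact ⟨_, hρ g i, rfl⟩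

variable {hfin : ((AddSubgroup.closure (TT ρ) : AddSubgroup (KK k n)) : Set (KK k n)).Finite}

include hρ in
lemma mem_LL_of_mem_PP {x : KK k n} (hx : x ∈ PP ρ hfin) : x ∈ LL k n :=
  clos_le ρ hρ ((mem_PP ρ).1 hx).2

include hρ in
lemma mem_range_of_mem_PP {x : KK k n} (hx : x ∈ PP ρ hfin) : x ∈ (Ps k n).range := by
  obtain ⟨f, -, rfl⟩ := mem_LL_of_mem_PP ρ hρ hx
  exact ⟨f, rfl⟩

include hρ in
lemma range_eq : (Ps k n).range = Algebra.adjoin k (PP ρ hfin : Set (KK k n)) := by
  apply le_antisymm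
  · rintro _ ⟨f, rfl⟩
    have h1 : (⊤ : Subalgebra k (MvPolynomial (Fin n) k)) ≤
        (Algebra.adjoin k (PP ρ hfin : Set (KK k n))).comap (Ps k n) := by
      rw [← MvPolynomial.adjoin_range_X]
      refine Algebra.adjoin_le ?_
      rintro _ ⟨i, rfl⟩
      exact Algebra.subset_adjoin (X_mem_PP ρ i)
    exact h1 trivial
  · exact Algebra.adjoin_le fun x hx => mem_range_of_mem_PP ρ hρ hx

include hρ in
lemma finrank_PP : Module.finrank k (Submodule.span k (PP ρ hfin : Set (KK k n))) ≤ n := by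
  have h1 : Submodule.span k (PP ρ hfin : Set (KK k n)) ≤ LL k n := by
    rw [Submodule.span_le]
    exact fun x hx => mem_LL_of_mem_PP ρ hρ hx
  rw [LL_eq] at h1
  have h2 : Module.Finite k
      (Submodule.span k (Set.range fun i : Fin n => Ps k n (MvPolynomial.X i))) :=
    Module.Finite.span_of_finite k (Set.finite_range _)
  have h3 := Submodule.finrank_mono h1
  have h5 : Module.finrank k
      (Submodule.span k (Set.range fun i : Fin n => Ps k n (MvPolynomial.X i))) ≤
      Fintype.card (Fin n) := finrank_range_le_card fun i : Fin n => Ps k n (MvPolynomial.X i)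
  rw [Fintype.card_fin] at h5
  omega

lemma trdeg_KK : (n : Cardinal) ≤ Algebra.trdeg k (KK k n) := by
  have h1 : AlgebraicIndependent k fun i : Fin n => Ps k n (MvPolynomial.X i) :=
    (MvPolynomial.algebraicIndependent_X (Fin n) k).map' Ps_inj
  have h2 := h1.cardinalMk_le_trdeg
  rwa [Cardinal.mk_fin] at h2

lemma frac_KK (x : KK k n) : ∃ a ∈ (Ps k n).range, ∃ b ∈ (Ps k n).range, b ≠ 0 ∧ x = a / b := by
  obtain ⟨a, b, hb, rfl⟩ := IsFractionRing.div_surjective (A := MvPolynomial (Fin n) k) x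
  refine ⟨_, ⟨a, rfl⟩, _, ⟨b, rfl⟩, ?_, rfl⟩
  change ¬ Ps k n b = 0
  rw [map_eq_zero_iff _ Ps_inj]
  exact nonZeroDivisors.ne_zero hb

include hρ in
lemma frac_PP (x : KK k n) : ∃ a ∈ Algebra.adjoin k (PP ρ hfin : Set (KK k n)),
    ∃ b ∈ Algebra.adjoin k (PP ρ hfin : Set (KK k n)), b ≠ 0 ∧ x = a / b := by
  rw [← range_eq ρ hρ]
  exact frac_KK x

lemma sub_mem_PP {a b : KK k n} (ha : a ∈ PP ρ hfin) (hb : b ∈ PP ρ hfin) (hab : a ≠ b) :
    a - b ∈ PP ρ hfin :=
  (mem_PP ρ).2 ⟨sub_ne_zero.2 hab, AddSubgroup.sub_mem _ ((mem_PP ρ).1 ha).2 ((mem_PP ρ).1 hb).2⟩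

lemma neg_mem_PP {a : KK k n} (ha : a ∈ PP ρ hfin) : -a ∈ PP ρ hfin :=
  (mem_PP ρ).2 ⟨neg_ne_zero.2 ((mem_PP ρ).1 ha).1, AddSubgroup.neg_mem _ ((mem_PP ρ).1 ha).2⟩

include hρ in
lemma fam_PP [NeZero n] : Fam (rK ρ).range.subtype (Ps k n).range (PP ρ hfin) := by
  refine ⟨⟨_, X_mem_PP ρ 0⟩, fun x hx => mem_range_of_mem_PP ρ hρ hx,
    fun x hx => ((mem_PP ρ).1 hx).1, ?_⟩
  rintro ⟨_, ⟨g, rfl⟩⟩ x hx
  obtain ⟨h1, h2⟩ := (mem_PP ρ).1 hx
  refine (mem_PP ρ).2 ⟨?_, clos_st ρ g h2⟩
  exact (map_ne_zero_iff _ (rK ρ g).injective).2 h1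

include hρ in
/-- The basic data of a finite linear group. -/
theorem base_lin [NeZero n] : Fam (rK ρ).range.subtype (Ps k n).range (PP ρ hfin) ∧
    (Ps k n).range = Algebra.adjoin k (PP ρ hfin : Set (KK k n)) ∧
    Module.finrank k (Submodule.span k (PP ρ hfin : Set (KK k n))) ≤ n ∧
    (n : Cardinal) ≤ Algebra.trdeg k (KK k n) ∧
    (∀ x : KK k n, ∃ a ∈ Algebra.adjoin k (PP ρ hfin : Set (KK k n)),
      ∃ b ∈ Algebra.adjoin k (PP ρ hfin : Set (KK k n)), b ≠ 0 ∧ x = a / b) ∧
    ∀ a ∈ PP ρ hfin, ∀ b ∈ PP ρ hfin, a ≠ b → a - b ∈ PP ρ hfin :=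
  ⟨fam_PP ρ hρ, range_eq ρ hρ, finrank_PP ρ hρ, trdeg_KK, frac_PP ρ hρ,
    fun _ ha _ hb hab => sub_mem_PP ρ ha hb hab⟩

/-- Elements of the fraction field which are integral over the polynomial ring are polynomials. -/
lemma range_ic (x : KK k n) (hx : IsIntegral (Ps k n).range x) : x ∈ (Ps k n).range := by
  let e := (Ps k n).rangeRestrict
  let _ : Algebra (MvPolynomial (Fin n) k) (Ps k n).range := e.toRingHom.toAlgebra
  have _ : IsScalarTower (MvPolynomial (Fin n) k) (Ps k n).range (KK k n) :=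
    IsScalarTower.of_algebraMap_eq fun r => rfl
  have h1 : Algebra.IsIntegral (MvPolynomial (Fin n) k) (Ps k n).range :=
    Algebra.isIntegral_of_surjective (Ps k n).rangeRestrict_surjective
  have h2 : IsIntegral (MvPolynomial (Fin n) k) x := isIntegral_trans x hx
  obtain ⟨y, hy⟩ := IsIntegrallyClosed.isIntegral_iff.1 h2
  exact ⟨y, hy⟩

end lin

end Pool.Agent.Helper12.PN
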