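import Pool.Agent.Helper12.PN.Proj

/-!
# Homogenization of affine actions
-/

set_option autoImplicit false
set_option linter.unusedSectionVars false

namespace Pool.Agent.Helper12.PN

open Finset Cardinal Pool.Agent.Helper46.AQ MvPolynomial

section lin

variable {k : Type} [Field k] {n : ℕ}

/-- The affine linear polynomials. -/
noncomputable def af (k : Type) [Field k] (n : ℕ) (o : Option (Fin n)) : MvPolynomial (Fin n) k :=
  o.elim 1 MvPolynomial.X

lemma mem_af {f : MvPolynomial (Fin n) k} (hf : f.totalDegree ≤ 1) :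
    f ∈ Submodule.span k (Set.range (af k n)) := by
  rw [f.as_sum]
  refine Submodule.sum_mem _ fun m hm => ?_
  have h1 : (m.sum fun _ e => e) ≤ 1 := (MvPolynomial.le_totalDegree hm).trans hf
  by_cases h2 : m = 0
  · subst h2
    have h3 : MvPolynomial.monomial (0 : Fin n →₀ ℕ) (MvPolynomial.coeff 0 f) =
        (MvPolynomial.coeff 0 f) • af k n none := by
      change _ = _ • (1 : MvPolynomial (Fin n) k)
      rw [MvPolynomial.smul_eq_C_mul, mul_one]
      rfl
    rw [h3]
    exact Submodule.smul_mem _ _ (Submodule.subset_span ⟨_, rfl⟩)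
  · obtain ⟨i, hi⟩ := Finsupp.ne_iff.1 h2
    rw [Finsupp.coe_zero, Pi.zero_apply] at hi
    have h3 : m = Finsupp.single i 1 := by
      rw [Finsupp.sum_fintype _ _ fun _ => rfl] at h1
      ext j
      by_cases hj : j = i
      · subst hj
        rw [Finsupp.single_eq_same]
        have h4 := Finset.single_le_sum (f := fun l => m l) (fun _ _ => Nat.zero_le _)
          (Finset.mem_univ j)
        have h5 : m j ≤ 1 := h4.trans h1
        omega
      · rw [Finsupp.single_eq_of_ne hj]
        have h4 : m i + m j ≤ ∑ l, m l := by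
          have h5 := Finset.sum_le_sum_of_subset (f := fun l => m l)
            (Finset.subset_univ ({i, j} : Finset (Fin n)))
          rwa [Finset.sum_pair (Ne.symm hj)] at h5
        omega
    rw [h3]
    have h4 : MvPolynomial.monomial (Finsupp.single i 1)
        (MvPolynomial.coeff (Finsupp.single i 1) f) =
        (MvPolynomial.coeff (Finsupp.single i 1) f) • af k n (some i) := by
      change _ = _ • (MvPolynomial.X i : MvPolynomial (Fin n) k)
      rw [MvPolynomial.X, MvPolynomial.smul_monomial, smul_eq_mul, mul_one]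
    rw [h4]
    exact Submodule.smul_mem _ _ (Submodule.subset_span ⟨_, rfl⟩)

/-- The homogenization of the polynomials of degree at most one. -/
noncomputable def hg (k : Type) [Field k] (n : ℕ) :
    MvPolynomial (Fin n) k →ₗ[k] MvPolynomial (Fin (n + 1)) k :=
  (MvPolynomial.lcoeff k 0).smulRight (X 0) +
    ∑ j : Fin n, (MvPolynomial.lcoeff k (Finsupp.single j 1)).smulRight (X j.succ)

lemma hg_apply (f : MvPolynomial (Fin n) k) :
    hg k n f = coeff 0 f • X 0 + ∑ j : Fin n, coeff (Finsupp.single j 1) f • X j.succ := by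
  simp [hg, LinearMap.sum_apply]

lemma hg_hom (f : MvPolynomial (Fin n) k) : (hg k n f).IsHomogeneous 1 := by
  rw [hg_apply]
  have h1 : ∀ (c : k) (i : Fin (n + 1)), (c • X i : MvPolynomial (Fin (n + 1)) k) ∈
      homogeneousSubmodule (Fin (n + 1)) k 1 :=
    fun c i => Submodule.smul_mem _ _ (isHomogeneous_X k i)
  exact Submodule.add_mem _ (h1 _ _) (Submodule.sum_mem _ fun j _ => h1 _ _)

lemma hg_one : hg k n 1 = X 0 := by
  rw [hg_apply, coeff_zero_one, one_smul]
  refine add_eq_left.2 (Finset.sum_eq_zero fun j _ => ?_)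
  rw [coeff_one, if_neg, zero_smul]
  intro h
  have h1 := DFunLike.congr_fun h j
  simp at h1

lemma hg_X (i : Fin n) : hg k n (X i) = X i.succ := by
  rw [hg_apply, coeff_zero_X, zero_smul, zero_add, Finset.sum_eq_single i]
  · rw [coeff_X, if_pos rfl, one_smul]
  · intro j _ hj
    rw [coeff_X, if_neg, zero_smul]
    intro h
    have h1 := DFunLike.congr_fun h i
    rw [Finsupp.single_eq_same, Finsupp.single_eq_of_ne hj.symm] at h1
    exact one_ne_zero h1
  · intro h
    exact absurd (Finset.mem_univ _) h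

end lin

section act

variable {k : Type} [Field k] {n : ℕ} {G : Type} [Group G]
  (ρ : G →* (MvPolynomial (Fin n) k ≃ₐ[k] MvPolynomial (Fin n) k))
  (hρ : ∀ g i, (ρ g (X i)).totalDegree ≤ 1)

/-- The homogenization of an affine transformation. -/
noncomputable def hA (g : G) : MvPolynomial (Fin (n + 1)) k →ₐ[k] MvPolynomial (Fin (n + 1)) k :=
  aeval (Fin.cons (X 0) fun i => hg k n (ρ g (X i)) : Fin (n + 1) → MvPolynomial (Fin (n + 1)) k)

lemma hA_zero (g : G) : hA ρ g (X 0) = X 0 := by
  unfold hA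
  rw [aeval_X, Fin.cons_zero]

lemma hA_succ (g : G) (i : Fin n) : hA ρ g (X i.succ) = hg k n (ρ g (X i)) := by
  unfold hA
  rw [aeval_X, Fin.cons_succ]

include hρ in
lemma hA_hg (g : G) {f : MvPolynomial (Fin n) k} (hf : f.totalDegree ≤ 1) :
    hA ρ g (hg k n f) = hg k n (ρ g f) := by
  have h1 := mem_af hf
  clear hf
  induction h1 using Submodule.span_induction with
  | mem x hx =>
    obtain ⟨o, rfl⟩ := hx
    cases o with
    | none =>
      change hA ρ g (hg k n 1) = hg k n (ρ g 1)
      rw [map_one (ρ g), hg_one, hA_zero]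
    | some i =>
      change hA ρ g (hg k n (X i)) = hg k n (ρ g (X i))
      rw [hg_X, hA_succ]
  | zero => simp only [map_zero]
  | add x y _ _ hx hy => rw [map_add, map_add, hx, hy, map_add, map_add]
  | smul c x _ hx => rw [map_smul, map_smul, hx, map_smul, map_smul]

/-- The homogenization of an affine action. -/
noncomputable def hm (hρ : ∀ g i, (ρ g (X i)).totalDegree ≤ 1) :
    G →* (MvPolynomial (Fin (n + 1)) k ≃ₐ[k] MvPolynomial (Fin (n + 1)) k) :=
  (AlgEquiv.algHomUnitsEquiv k (MvPolynomial (Fin (n + 1)) k)).toMonoidHom.comp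
    (MonoidHom.toHomUnits
      { toFun := hA ρ
        map_one' := by
          refine MvPolynomial.algHom_ext fun i => ?_
          refine Fin.cases ?_ (fun j => ?_) i
          · rw [hA_zero]; rfl
          · rw [hA_succ, map_one]
            exact hg_X j
        map_mul' := fun g h => by
          refine MvPolynomial.algHom_ext fun i => ?_
          refine Fin.cases ?_ (fun j => ?_) i
          · rw [AlgHom.mul_apply, hA_zero, hA_zero, hA_zero]
          · rw [AlgHom.mul_apply, hA_succ, hA_succ, hA_hg ρ hρ g (hρ h j), map_mul,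
              AlgEquiv.mul_apply] })

lemma hm_apply (g : G) (f : MvPolynomial (Fin (n + 1)) k) : hm ρ hρ g f = hA ρ g f := rfl

lemma hm_zero (g : G) : hm ρ hρ g (X 0) = X 0 := hA_zero ρ g

lemma hm_succ (g : G) (i : Fin n) : hm ρ hρ g (X i.succ) = hg k n (ρ g (X i)) := hA_succ ρ g i

lemma hm_hg (g : G) {f : MvPolynomial (Fin n) k} (hf : f.totalDegree ≤ 1) :
    hm ρ hρ g (hg k n f) = hg k n (ρ g f) := hA_hg ρ hρ g hf

/-- The homogenization of an affine action is linear. -/
theorem hm_hom (g : G) (i : Fin (n + 1)) : (hm ρ hρ g (X i)).IsHomogeneous 1 := by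
  refine Fin.cases ?_ (fun j => ?_) i
  · rw [hm_zero]
    exact isHomogeneous_X k _
  · rw [hm_succ]
    exact hg_hom _

end act

section emb

variable {k : Type} [Field k] {n : ℕ}

/-- The affine coordinates of projective space. -/
noncomputable def yy (k : Type) [Field k] (n : ℕ) (i : Fin n) : KK k (n + 1) :=
  Ps k (n + 1) (X i.succ) / Ps k (n + 1) (X 0)

lemma yy_ind : AlgebraicIndependent k (yy k n) := by
  let β : MvPolynomial (Fin (n + 1)) k →ₐ[k] MvPolynomial (Fin (n + 1)) k :=
    aeval (Fin.cons (X 0) fun i => X i.succ * X 0 : Fin (n + 1) → MvPolynomial (Fin (n + 1)) k)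
  let γ : MvPolynomial (Fin (n + 1)) k →ₐ[k] KK k (n + 1) :=
    aeval (Fin.cons (Ps k (n + 1) (X 0)) (yy k n) : Fin (n + 1) → KK k (n + 1))
  have h1 : γ.comp β = Ps k (n + 1) := by
    refine MvPolynomial.algHom_ext fun i => ?_
    refine Fin.cases ?_ (fun j => ?_) i
    · simp [γ, β]
    · simp only [γ, β, AlgHom.comp_apply, aeval_X, Fin.cons_succ, map_mul, Fin.cons_zero]
      exact div_mul_cancel₀ _ (Ps_X_ne_zero 0)
  have hβ : Function.Injective β := by
    have h2 : Function.Injective (γ.comp β) := by rw [h1]; exact Ps_inj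
    exact Function.Injective.of_comp (f := γ) h2
  have hβ' : Function.Injective ((Ps k (n + 1)).comp β) := Ps_inj.comp hβ
  let Θ : KK k (n + 1) →ₐ[k] KK k (n + 1) := IsFractionRing.liftAlgHom (K := KK k (n + 1)) hβ'
  have hΘ : ∀ f, Θ (Ps k (n + 1) f) = Ps k (n + 1) (β f) := fun f =>
    IsFractionRing.lift_algebraMap hβ' f
  have h3 : Θ ∘ (yy k n) = fun i => Ps k (n + 1) (X (Fin.succ i)) := by
    funext i
    change Θ (Ps k (n + 1) (X i.succ) / Ps k (n + 1) (X 0)) = _
    rw [map_div₀, hΘ, hΘ]
    simp only [β, aeval_X, Fin.cons_succ, Fin.cons_zero, map_mul]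
    exact mul_div_cancel_right₀ _ (Ps_X_ne_zero 0)
  refine AlgebraicIndependent.of_comp Θ ?_
  rw [h3]
  exact ((MvPolynomial.algebraicIndependent_X (Fin (n + 1)) k).comp _
    (Fin.succ_injective n)).map' Ps_inj

lemma yy_inj : Function.Injective
    (aeval (yy k n) : MvPolynomial (Fin n) k →ₐ[k] KK k (n + 1)) := yy_ind

/-- The embedding of the function field of affine space. -/
noncomputable def em (k : Type) [Field k] (n : ℕ) : KK k n →ₐ[k] KK k (n + 1) :=
  IsFractionRing.liftAlgHom (K := KK k n) (g := aeval (yy k n)) yy_inj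

lemma em_Ps (f : MvPolynomial (Fin n) k) : em k n (Ps k n f) = aeval (yy k n) f :=
  IsFractionRing.lift_algebraMap yy_inj f

lemma em_X (i : Fin n) : em k n (Ps k n (X i)) = yy k n i := by
  rw [em_Ps, aeval_X]

lemma em_inj : Function.Injective (em k n) := (em k n).injective

lemma em_mem (x : KK k n) : em k n x ∈ K0 k n := by
  obtain ⟨_, ⟨a, rfl⟩, _, ⟨b, rfl⟩, -, rfl⟩ := frac_KK x
  have h1 : ∀ f : MvPolynomial (Fin n) k, (aeval (yy k n) f : KK k (n + 1)) ∈ K0 k n := by
    intro f
    have h2 : (⊤ : Subalgebra k (MvPolynomial (Fin n) k)) ≤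
        (K0 k n).toSubalgebra.comap (aeval (yy k n)) := by
      rw [← MvPolynomial.adjoin_range_X]
      refine Algebra.adjoin_le ?_
      rintro _ ⟨i, rfl⟩
      change aeval (yy k n) (X i) ∈ K0 k n
      rw [aeval_X]
      exact X_div_X_mem _ _
    exact h2 trivial
  rw [map_div₀]
  refine (K0 k n).div_mem ?_ ?_
  · change em k n (Ps k n a) ∈ K0 k n
    rw [em_Ps]
    exact h1 a
  · change em k n (Ps k n b) ∈ K0 k n
    rw [em_Ps]
    exact h1 b

/-- The range of the embedding is the function field of projective space. -/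
theorem em_range : (em k n).fieldRange = K0 k n := by
  apply le_antisymm
  · rintro _ ⟨x, rfl⟩
    exact em_mem x
  · refine IntermediateField.adjoin_le_iff.2 ?_
    have h1 : ∀ i : Fin (n + 1), Ps k (n + 1) (X i) / Ps k (n + 1) (X 0) ∈
        (em k n).fieldRange := by
      intro i
      refine Fin.cases ?_ (fun j => ?_) i
      · rw [div_self (Ps_X_ne_zero _)]
        exact (em k n).fieldRange.one_mem
      · exact ⟨_, em_X j⟩
    rintro _ ⟨i, j, rfl⟩
    rw [← div_div_div_cancel_right₀ (Ps_X_ne_zero (k := k) (0 : Fin (n + 1)))]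
    exact (em k n).fieldRange.div_mem (h1 i) (h1 j)

lemma aeval_yy {f : MvPolynomial (Fin n) k} (hf : f.totalDegree ≤ 1) :
    aeval (yy k n) f = Ps k (n + 1) (hg k n f) / Ps k (n + 1) (X 0) := by
  have h1 := mem_af hf
  clear hf
  induction h1 using Submodule.span_induction with
  | mem x hx =>
    obtain ⟨o, rfl⟩ := hx
    cases o with
    | none =>
      change aeval (yy k n) 1 = Ps k (n + 1) (hg k n 1) / _
      rw [map_one, hg_one, div_self (Ps_X_ne_zero _)]
    | some i =>
      change aeval (yy k n) (X i) = Ps k (n + 1) (hg k n (X i)) / _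
      rw [hg_X, aeval_X]
      rfl
  | zero => simp only [map_zero, zero_div]
  | add x y _ _ hx hy => rw [map_add, hx, hy, map_add, map_add, add_div]
  | smul c x _ hx => rw [map_smul, map_smul, hx, map_smul, smul_div_assoc]

end emb

section eqv

variable {k : Type} [Field k] {n : ℕ} {G : Type} [Group G]
  (ρ : G →* (MvPolynomial (Fin n) k ≃ₐ[k] MvPolynomial (Fin n) k))
  (hρ : ∀ g i, (ρ g (X i)).totalDegree ≤ 1)

/-- The embedding is equivariant. -/
theorem em_eqv (g : G) (x : KK k n) : em k n (rK ρ g x) = rK (hm ρ hρ) g (em k n x) := by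
  have h1 : ∀ f, em k n (rK ρ g (Ps k n f)) = rK (hm ρ hρ) g (em k n (Ps k n f)) := by
    intro f
    have h2 : ((em k n).comp (rK ρ g : KK k n ≃ₐ[k] KK k n).toAlgHom).comp (Ps k n) =
        ((rK (hm ρ hρ) g : KK k (n + 1) ≃ₐ[k] KK k (n + 1)).toAlgHom.comp (em k n)).comp
          (Ps k n) := by
      refine MvPolynomial.algHom_ext fun i => ?_
      change em k n (rK ρ g (Ps k n (X i))) = rK (hm ρ hρ) g (em k n (Ps k n (X i)))
      rw [rK_Ps, em_X, em_Ps, aeval_yy (hρ g i)]
      unfold yy
      rw [map_div₀, rK_Ps, rK_Ps, hm_zero, hm_succ]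
    exact DFunLike.congr_fun h2 f
  obtain ⟨_, ⟨a, rfl⟩, _, ⟨b, rfl⟩, -, rfl⟩ := frac_KK x
  rw [map_div₀, map_div₀, map_div₀, map_div₀]
  congr 1
  · exact h1 a
  · exact h1 b

/-- The invariants of the function field of affine space. -/
noncomputable def fx {k : Type} [Field k] {n : ℕ} {G : Type} [Group G]
    (ρ : G →* (MvPolynomial (Fin n) k ≃ₐ[k] MvPolynomial (Fin n) k)) :
    IntermediateField k (KK k n) where
  carrier := {x | ∀ g, rK ρ g x = x}
  mul_mem' := fun {a b} ha hb g => by rw [map_mul, ha g, hb g]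
  add_mem' := fun {a b} ha hb g => by rw [map_add, ha g, hb g]
  algebraMap_mem' := fun c g => (rK ρ g).commutes c
  inv_mem' := fun a ha g => by rw [map_inv₀, ha g]

/-- The invariants of the function field of projective space. -/
noncomputable def fx0 {k : Type} [Field k] {n : ℕ} {G : Type} [Group G]
    (ρ : G →* (MvPolynomial (Fin (n + 1)) k ≃ₐ[k] MvPolynomial (Fin (n + 1)) k)) :
    IntermediateField k (KK k (n + 1)) := fx ρ ⊓ K0 k n

lemma mem_fx0 (ρ : G →* (MvPolynomial (Fin (n + 1)) k ≃ₐ[k] MvPolynomial (Fin (n + 1)) k))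
    {x : KK k (n + 1)} : x ∈ fx0 ρ ↔ (∀ g, rK ρ g x = x) ∧ x ∈ K0 k n := Iff.rfl

/-- The invariants of the function field of affine space are the invariants of the function field
of projective space for the homogenized action. -/
noncomputable def fxE : fx ρ ≃ₐ[k] fx0 (hm ρ hρ) :=
  AlgEquiv.ofBijective
    (((em k n).comp (fx ρ).val).codRestrict (fx0 (hm ρ hρ)).toSubalgebra fun x => by
      refine ⟨fun g => ?_, em_mem _⟩
      change rK (hm ρ hρ) g (em k n x) = em k n x
      rw [← em_eqv, x.2 g])
    (by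
      constructor
      · intro x y hxy
        exact Subtype.ext (em_inj (congrArg Subtype.val hxy))
      · rintro ⟨y, hy1, hy2⟩
        rw [SetLike.mem_coe, ← em_range] at hy2
        obtain ⟨x, rfl⟩ := hy2
        refine ⟨⟨x, fun g => em_inj ?_⟩, rfl⟩
        rw [em_eqv ρ hρ]
        exact hy1 g)

lemma fxE_apply (x : fx ρ) : ((fxE ρ hρ x : fx0 (hm ρ hρ)) : KK k (n + 1)) = em k n x := rfl

end eqv

end Pool.Agent.Helper12.PN
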