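import Mathlib

/-!
# The Gauss extension of a valuation ring to a transcendental element
-/

set_option autoImplicit false

namespace Pool.Agent.Helper12.PN

open Polynomial

/-- A valuation ring of a subfield extends to a valuation ring of the whole field for which a given
transcendental element is a unit and the powers of this element are orthonormal. -/
theorem exists_gauss {K : Type} [Field K] (K0 : Subfield K) (t : K) (ht : Transcendental K0 t)
    (V : ValuationSubring K0) : ∃ W : ValuationSubring K, (∀ a : K0, (a : K) ∈ W ↔ a ∈ V) ∧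
      t ∈ W ∧ t⁻¹ ∈ W ∧ ∀ (s : Finset ℤ) (c : ℤ → K0),
        (∑ i ∈ s, (c i : K) * t ^ i) ∈ W → ∀ i ∈ s, c i ∈ V := by
  classical
  -- the homomorphism from the polynomial ring
  let π : V[X] →+* (IsLocalRing.ResidueField V)[X] := mapRingHom (IsLocalRing.residue V)
  let P : Ideal V[X] := RingHom.ker π
  have hP : P.IsPrime := RingHom.ker_isPrime π
  have hmem : ∀ f : V[X], f ∈ P ↔ ∀ n, IsLocalRing.residue V (f.coeff n) = 0 := by
    intro f
    rw [RingHom.mem_ker, Polynomial.ext_iff]
    simp [π, coeff_map]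
  let φ : V[X] →+* K := eval₂RingHom (K0.subtype.comp V.subtype) t
  have hφC : ∀ a : V, φ (C a) = ((a : K0) : K) := fun a => by simp [φ]
  have hφX : φ X = t := by simp [φ]
  have hφi : Function.Injective φ := by
    rw [injective_iff_map_eq_zero]
    intro f hf
    have h1 : aeval t (f.map V.subtype) = 0 := by
      rw [aeval_def, eval₂_map]
      exact hf
    have h2 : f.map V.subtype = 0 := by
      by_contra h3
      exact ht ⟨_, h3, h1⟩
    exact (Polynomial.map_eq_zero_iff Subtype.val_injective).1 h2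
  have hφ' : ∀ y : P.primeCompl, IsUnit (φ y) := by
    intro y
    rw [isUnit_iff_ne_zero]
    intro h0
    have h1 : (y : V[X]) = 0 := hφi (by rw [h0, map_zero])
    exact y.2 (by rw [h1]; exact P.zero_mem)
  let f : Localization.AtPrime P →+* K := IsLocalization.lift (M := P.primeCompl) hφ'
  obtain ⟨W, hW, hloc⟩ := IsLocalRing.exists_factor_valuationRing (R := Localization.AtPrime P) (K := K) f
  have hfg : ∀ c : V[X], f (algebraMap V[X] _ c) = φ c := fun c => IsLocalization.lift_eq hφ' c
  have h1 : ∀ c : V[X], φ c ∈ W := fun c => by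
    rw [← hfg]
    exact hW _
  have h2 : ∀ c : V[X], c ∉ P ↔ IsUnit (⟨φ c, h1 c⟩ : W) := by
    intro c
    have e2 : IsUnit (algebraMap V[X] (Localization.AtPrime P) c) ↔ c ∉ P :=
      IsLocalization.AtPrime.isUnit_to_map_iff (Localization.AtPrime P) P c
    have e3 : IsUnit (f.codRestrict W.toSubring hW (algebraMap V[X] _ c)) ↔
        IsUnit (algebraMap V[X] (Localization.AtPrime P) c) := isUnit_map_iff _ _
    have e5 : (f.codRestrict W.toSubring hW (algebraMap V[X] _ c)) = (⟨φ c, h1 c⟩ : W) :=
      Subtype.ext (hfg c)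
    rw [← e2, ← e3, e5]
  have hval : ∀ c : V[X], W.valuation (φ c) ≤ 1 := fun c => (W.valuation_le_one_iff _).2 (h1 c)
  have hval1 : ∀ c : V[X], W.valuation (φ c) = 1 ↔ c ∉ P := fun c => by
    rw [h2 c]
    exact (W.valuation_eq_one_iff ⟨φ c, h1 c⟩).symm
  have hvalt : W.valuation t = 1 := by
    rw [← hφX, hval1, hmem]
    intro h
    have := h 1
    rw [coeff_X_one, map_one] at this
    exact one_ne_zero this
  -- the inverses of elements outside of `V` have valuation less than one
  have hsmall : ∀ a : K0, a ∉ V → W.valuation ((a : K)⁻¹) < 1 := by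
    intro a ha
    have ha0 : a ≠ 0 := fun h => ha (h ▸ V.zero_mem)
    have ha1 : a⁻¹ ∈ V := (V.mem_or_inv_mem a).resolve_left ha
    have hPa : (C (⟨a⁻¹, ha1⟩ : V) : V[X]) ∈ P := by
      rw [hmem]
      intro n
      rw [coeff_C]
      split_ifs with hn
      · rw [IsLocalRing.residue_eq_zero_iff, IsLocalRing.mem_maximalIdeal, mem_nonunits_iff]
        intro hu
        obtain ⟨u, hu⟩ := hu
        apply ha
        have h3 : ((u⁻¹ : Vˣ) : V) * (⟨a⁻¹, ha1⟩ : V) = 1 := by
          rw [← hu]
          exact Units.inv_mul u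
        have h4 : (((u⁻¹ : Vˣ) : V) : K0) * a⁻¹ = 1 := congrArg Subtype.val h3
        have h5 : a = (((u⁻¹ : Vˣ) : V) : K0) := by
          field_simp at h4
          exact h4.symm
        rw [h5]
        exact ((u⁻¹ : Vˣ) : V).2
      · exact map_zero _
    have h3 := hval (C (⟨a⁻¹, ha1⟩ : V))
    rw [hφC] at h3
    have h4 : W.valuation (((a⁻¹ : K0) : K)) ≠ 1 := by
      intro h5
      have h6 := (hval1 (C (⟨a⁻¹, ha1⟩ : V))).1 (by rw [hφC]; exact h5)
      exact h6 hPa
    have h5 : (((a⁻¹ : K0) : K)) = (a : K)⁻¹ := by push_cast; rfl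
    rw [h5] at h3 h4
    exact lt_of_le_of_ne h3 h4
  refine ⟨W, ?_, ?_, ?_, ?_⟩
  · intro a
    constructor
    · intro h
      by_contra ha
      have h3 := hsmall a ha
      rw [map_inv₀] at h3
      have h4 : W.valuation (a : K) ≤ 1 := (W.valuation_le_one_iff _).2 h
      have ha0 : (a : K) ≠ 0 := fun h => ha (by
        have : a = 0 := Subtype.ext h
        rw [this]; exact V.zero_mem)
      have h5 : W.valuation (a : K) ≠ 0 := (Valuation.ne_zero_iff _).2 ha0
      have h6 := (inv_lt_one₀ (zero_lt_iff.2 h5)).1 h3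
      exact absurd h4 (not_le.2 h6)
    · intro h
      have := h1 (C (⟨a, h⟩ : V))
      rwa [hφC] at this
  · rw [← W.valuation_le_one_iff, hvalt]
  · rw [← W.valuation_le_one_iff, map_inv₀, hvalt, inv_one]
  · intro s c hs i hi
    by_contra hci
    -- the coefficient of largest valuation
    obtain ⟨i₀, hi₀, hmax⟩ := Finset.exists_max_image s (fun i => V.valuation (c i)) ⟨i, hi⟩
    have hci₀ : c i₀ ∉ V := by
      rw [← V.valuation_le_one_iff] at hci ⊢
      exact fun h => hci ((hmax i hi).trans h)
    have h0 : c i₀ ≠ 0 := fun h => hci₀ (h ▸ V.zero_mem)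
    have h0K : ((c i₀ : K0) : K) ≠ 0 := fun h => h0 (Subtype.ext h)
    have hv0 : V.valuation (c i₀) ≠ 0 := (Valuation.ne_zero_iff _).2 h0
    have hd : ∀ j : s, c j / c i₀ ∈ V := by
      intro j
      rw [← V.valuation_le_one_iff, map_div₀]
      exact div_le_one_of_le₀ (hmax j j.2) zero_le
    -- a lower bound for the exponents
    obtain ⟨N, hN⟩ : ∃ N : ℕ, ∀ j ∈ s, 0 ≤ j + N := by
      refine ⟨∑ j ∈ s, j.natAbs, fun j hj => ?_⟩
      have h3 : j.natAbs ≤ ∑ j ∈ s, j.natAbs :=
        Finset.single_le_sum (f := fun j : ℤ => j.natAbs) (fun _ _ => Nat.zero_le _) hj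
      omega
    let F : V[X] := ∑ j : s, C (⟨c j / c i₀, hd j⟩ : V) * X ^ ((j : ℤ) + N).toNat
    have hF : φ F = t ^ N * ((c i₀ : K)⁻¹ * ∑ i ∈ s, (c i : K) * t ^ i) := by
      have ht0 : t ≠ 0 := by
        intro h
        rw [h, map_zero] at hvalt
        exact zero_ne_one hvalt
      rw [map_sum, Finset.mul_sum, Finset.mul_sum, ← Finset.sum_coe_sort s]
      refine Finset.sum_congr rfl fun j _ => ?_
      rw [map_mul, map_pow, hφC, hφX]
      have h3 : t ^ (((j : ℤ) + N).toNat) = t ^ (j : ℤ) * t ^ N := by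
        rw [← zpow_natCast, Int.toNat_of_nonneg (hN j j.2), zpow_add₀ ht0, zpow_natCast]
      rw [h3]
      push_cast
      field_simp
    have hFP : F ∉ P := by
      rw [hmem]
      intro h
      have h3 := h ((i₀ + N).toNat)
      have h4 : F.coeff ((i₀ + N).toNat) = 1 := by
        simp only [F, finsetSum_coeff, coeff_C_mul, coeff_X_pow]
        rw [Finset.sum_eq_single (⟨i₀, hi₀⟩ : s)]
        · rw [if_pos rfl, mul_one]
          apply Subtype.ext
          exact div_self h0
        · intro j _ hj
          rw [if_neg, mul_zero]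
          intro h5
          apply hj
          apply Subtype.ext
          change (j : ℤ) = i₀
          have h6 := hN j j.2
          have h7 := hN i₀ hi₀
          omega
        · intro h5
          exact absurd (Finset.mem_univ _) h5
      rw [h4, map_one] at h3
      exact one_ne_zero h3
    have h3 := (hval1 F).2 hFP
    rw [hF, map_mul, map_pow, hvalt, one_pow, one_mul, map_mul] at h3
    have h4 := hsmall _ hci₀
    have h5 : W.valuation (∑ i ∈ s, (c i : K) * t ^ i) ≤ 1 := (W.valuation_le_one_iff _).2 hs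
    exact absurd h3 (mul_lt_one_of_lt_of_le h4 h5).ne

end Pool.Agent.Helper12.PN
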