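import Pool.Agent.Helper12.PN.Base
import Pool.Agent.Helper12.PN.Gauss

/-!
# The function field of projective space
-/

set_option autoImplicit false
set_option linter.unusedSectionVars false

namespace Pool.Agent.Helper12.PN

open Finset Cardinal Pool.Agent.Helper46.AQ

section K0

variable (k : Type) [Field k] (n : ℕ)

/-- The function field of projective space, generated by the quotients of the variables. -/
noncomputable def K0 : IntermediateField k (KK k (n + 1)) :=
  IntermediateField.adjoin k {x | ∃ i j, x = Ps k (n + 1) (MvPolynomial.X i) /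
    Ps k (n + 1) (MvPolynomial.X j)}

variable {k n}

lemma X_div_X_mem (i j : Fin (n + 1)) : Ps k (n + 1) (MvPolynomial.X i) /
    Ps k (n + 1) (MvPolynomial.X j) ∈ K0 k n :=
  IntermediateField.subset_adjoin k _ ⟨i, j, rfl⟩

lemma LL_div_X_mem {x : KK k (n + 1)} (hx : x ∈ LL k (n + 1)) (j : Fin (n + 1)) :
    x / Ps k (n + 1) (MvPolynomial.X j) ∈ K0 k n := by
  rw [LL_eq] at hx
  induction hx using Submodule.span_induction with
  | mem x h =>
    obtain ⟨i, rfl⟩ := h
    exact X_div_X_mem i j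
  | zero => rw [zero_div]; exact (K0 k n).zero_mem
  | add x y _ _ hx hy => rw [add_div]; exact (K0 k n).add_mem hx hy
  | smul c x _ hx => rw [smul_div_assoc]; exact (K0 k n).smul_mem hx

lemma LL_div_LL_mem {x y : KK k (n + 1)} (hx : x ∈ LL k (n + 1)) (hy : y ∈ LL k (n + 1)) :
    x / y ∈ K0 k n := by
  rw [← div_div_div_cancel_right₀ (Ps_X_ne_zero (k := k) (0 : Fin (n + 1))) x y]
  exact (K0 k n).div_mem (LL_div_X_mem hx 0) (LL_div_X_mem hy 0)

/-- The first variable is transcendental over the function field of projective space. -/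
theorem tr_K0 : Transcendental (K0 k n) (Ps k (n + 1) (MvPolynomial.X 0)) := by
  let K := KK k (n + 1)
  let θ₀ : MvPolynomial (Fin (n + 1)) k →ₐ[k] Polynomial K :=
    MvPolynomial.aeval fun i => Polynomial.C (Ps k (n + 1) (MvPolynomial.X i)) * Polynomial.X
  let ev : Polynomial K →ₐ[k] K := (Polynomial.aeval (1 : K)).restrictScalars k
  have h1 : ev.comp θ₀ = Ps k (n + 1) := by
    refine MvPolynomial.algHom_ext fun i => ?_
    simp [ev, θ₀]
  have hθ₀ : Function.Injective θ₀ := by
    have h2 : Function.Injective (ev.comp θ₀) := by rw [h1]; exact Ps_inj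
    exact Function.Injective.of_comp (f := ev) h2
  let θ₁ : MvPolynomial (Fin (n + 1)) k →ₐ[k] RatFunc K :=
    (IsScalarTower.toAlgHom k (Polynomial K) (RatFunc K)).comp θ₀
  have hθ₁ : Function.Injective θ₁ := (RatFunc.algebraMap_injective K).comp hθ₀
  let Θ : K →ₐ[k] RatFunc K := IsFractionRing.liftAlgHom (K := K) hθ₁
  have hΘ : ∀ f, Θ (Ps k (n + 1) f) = algebraMap (Polynomial K) (RatFunc K) (θ₀ f) := fun f =>
    IsFractionRing.lift_algebraMap hθ₁ f
  have hΘX : ∀ i, Θ (Ps k (n + 1) (MvPolynomial.X i)) =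
      algebraMap (Polynomial K) (RatFunc K)
        (Polynomial.C (Ps k (n + 1) (MvPolynomial.X i)) * Polynomial.X) := fun i => by
    rw [hΘ]
    simp [θ₀]
  have hΘ0 : ∀ a ∈ K0 k n, Θ a = algebraMap (Polynomial K) (RatFunc K) (Polynomial.C a) := by
    intro a ha
    induction ha using IntermediateField.adjoin_induction with
    | mem x h =>
      obtain ⟨i, j, rfl⟩ := h
      rw [map_div₀, hΘX, hΘX, map_mul, map_mul, mul_div_mul_right]
      · simp only [RatFunc.algebraMap_C]
        rw [map_div₀]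
      · intro h0
        exact Polynomial.X_ne_zero (R := K) ((map_eq_zero_iff _ (RatFunc.algebraMap_injective K)).1 h0)
    | algebraMap x => rw [AlgHom.commutes]; rfl
    | add x y _ _ hx hy => rw [map_add, hx, hy, map_add, map_add]
    | inv x _ hx =>
      rw [map_inv₀, hx, RatFunc.algebraMap_C, RatFunc.algebraMap_C, map_inv₀]
    | mul x y _ _ hx hy => rw [map_mul, hx, hy, map_mul, map_mul]
  rintro ⟨p, hp0, hp⟩
  apply hp0
  have h2 : algebraMap (Polynomial K) (RatFunc K) ((p.map (algebraMap (K0 k n) K)).comp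
      (Polynomial.C (Ps k (n + 1) (MvPolynomial.X 0)) * Polynomial.X)) = 0 := by
    have h3 : Θ (Polynomial.aeval (Ps k (n + 1) (MvPolynomial.X 0)) p) = 0 := by
      rw [hp, map_zero]
    rw [← h3, Polynomial.aeval_def, Polynomial.eval₂_eq_sum_range, map_sum, Polynomial.comp,
      Polynomial.eval₂_map, Polynomial.eval₂_eq_sum_range, map_sum]
    refine Finset.sum_congr rfl fun i _ => ?_
    rw [map_mul, map_pow, map_mul Θ, map_pow Θ, hΘX]
    congr 1
    exact (hΘ0 _ (p.coeff i).2).symm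
  have h4 := (map_eq_zero_iff _ (RatFunc.algebraMap_injective K)).1 h2
  ext i
  have h5 := congrArg (fun q => Polynomial.coeff q i) h4
  simp only [Polynomial.comp_C_mul_X_coeff, Polynomial.coeff_zero, Polynomial.coeff_map] at h5
  have h6 := (mul_eq_zero.1 h5).resolve_right (pow_ne_zero _ (Ps_X_ne_zero _))
  rw [Polynomial.coeff_zero]
  exact h6

theorem tr_K0' : Transcendental (K0 k n).toSubfield (Ps k (n + 1) (MvPolynomial.X 0)) := tr_K0

/-- The Gauss extension of a valuation ring of the function field of projective space. -/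
theorem gauss_K0 (V : ValuationSubring (K0 k n)) : ∃ W : ValuationSubring (KK k (n + 1)),
    (∀ a : K0 k n, (a : KK k (n + 1)) ∈ W ↔ a ∈ V) ∧
      Ps k (n + 1) (MvPolynomial.X 0) ∈ W ∧ (Ps k (n + 1) (MvPolynomial.X 0))⁻¹ ∈ W ∧
      ∀ (s : Finset ℤ) (c : ℤ → K0 k n),
        (∑ i ∈ s, (c i : KK k (n + 1)) * Ps k (n + 1) (MvPolynomial.X 0) ^ i) ∈ W →
          ∀ i ∈ s, c i ∈ V :=
  exists_gauss (K0 k n).toSubfield _ tr_K0' V

end K0

section act

variable {k : Type} [Field k] {n : ℕ} {G : Type} [Group G]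
  (ρ : G →* (MvPolynomial (Fin (n + 1)) k ≃ₐ[k] MvPolynomial (Fin (n + 1)) k))
  (hρ : ∀ g i, (ρ g (MvPolynomial.X i)).IsHomogeneous 1)
  {hfin : ((AddSubgroup.closure (TT ρ) : AddSubgroup (KK k (n + 1))) : Set (KK k (n + 1))).Finite}

include hρ in
lemma PP_div_X_mem {a : KK k (n + 1)} (ha : a ∈ PP ρ hfin) (j : Fin (n + 1)) :
    a / Ps k (n + 1) (MvPolynomial.X j) ∈ K0 k n := LL_div_X_mem (mem_LL_of_mem_PP ρ hρ ha) j

include hρ in
lemma PP_div_PP_mem {a b : KK k (n + 1)} (ha : a ∈ PP ρ hfin) (hb : b ∈ PP ρ hfin) :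
    a / b ∈ K0 k n := LL_div_LL_mem (mem_LL_of_mem_PP ρ hρ ha) (mem_LL_of_mem_PP ρ hρ hb)

include hρ in
/-- The function field of projective space is stable under the group. -/
theorem rK_K0 (g : G) {a : KK k (n + 1)} (ha : a ∈ K0 k n) : rK ρ g a ∈ K0 k n := by
  have h1 : K0 k n ≤ (K0 k n).comap (rK ρ g : KK k (n + 1) ≃ₐ[k] KK k (n + 1)).toAlgHom := by
    refine (IntermediateField.adjoin_le_iff).2 ?_
    rintro _ ⟨i, j, rfl⟩
    change rK ρ g _ ∈ K0 k n
    rw [map_div₀, rK_Ps, rK_Ps]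
    exact LL_div_LL_mem ⟨_, hρ g i, rfl⟩ ⟨_, hρ g j, rfl⟩
  exact h1 ha

end act

end Pool.Agent.Helper12.PN
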